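import Pool.Agent.R283.GV.LS

/-!
# MP_709666_lc, Q1: yes

There are countable existentially closed groups `G` and `H` which are not isomorphic and whose
group von Neumann algebras are elementarily equivalent.
-/

namespace Pool.Agent.Results.MP_709666_lc.ElementarilyEquivalent

open Pool.Agent.R283.GV

theorem result : ∃ (G H : Type) (_ : Group G) (_ : Group H), Countable G ∧ Countable H ∧
    IsExClosed G ∧ IsExClosed H ∧ IsEmpty (G ≃* H) ∧ (groupL G).ElemEq (groupL H) := by
  obtain ⟨G, H, iG, iH, h1, h2, -, -, h5, h6, h7, h8⟩ := main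
  exact ⟨G, H, iG, iH, h1, h2, h5, h6, h7, h8⟩

end Pool.Agent.Results.MP_709666_lc.ElementarilyEquivalent
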